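import Pool.Agent.Helper65.NX.Goals2

/-!
# Packet NW-CCONE: cones of the net of a circuit
-/

namespace Pool.Agent.Helper65.NX.K35

open Pool.Agent.Helper65.LinSpace Pool.Agent.Helper78.Mpc Pool.Agent.Helper28.Ram Finset
open Pool.Agent.Helper65.HC Pool.Agent.Helper65.NX

theorem inp_circ {A : Circ} {N : Net} (h : IsCirc A N) (n : ℕ) (p z : List Bool) (t i : ℕ) :
    N.inp n p t z i = z ∨ (t % 2 = 0 ∧ t ≠ 0 ∧ (pad p.length (t / 2 - 1).bits).length = p.length ∧
      N.inp n p t z i = pad p.length (t / 2 - 1).bits) := by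
  unfold Net.inp
  rw [h.nb]
  unfold cnb
  rw [ht_hd, hr_hd, hp_hd, hz_hd]
  split_ifs with h1 h2 h3
  · exact Or.inr ⟨h1.1, h1.2.1, h2, rfl⟩
  · exact Or.inl rfl
  · exact Or.inl rfl
  · exact Or.inl rfl

theorem cone_sub {A : Circ} {N : Net} (h : IsCirc A N) (n : ℕ) (p : List Bool) (k : ℕ) :
    ∀ (t : ℕ) (z : List Bool), k ≤ t → z.length = p.length →
      N.cone n p k t z ⊆ {z} ∪ (fun u : ℕ => pad p.length u.bits) ''
        {u : ℕ | t ≤ 2 * u + 2 + k ∧ 2 * u + 2 < t} := by
  induction k with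
  | zero =>
    intro t z _ _
    exact Set.subset_union_left
  | succ k ih =>
    intro t z hk hz
    rintro v ⟨i, _, hv⟩
    rcases inp_circ h n p z (t - 1) i with h1 | ⟨h1, h2, h3, h4⟩
    · rw [h1] at hv
      rcases ih (t - 1) z (by omega) hz hv with h5 | ⟨u, ⟨hu1, hu2⟩, hu3⟩
      · exact Or.inl h5
      · exact Or.inr ⟨u, ⟨by omega, by omega⟩, hu3⟩
    · rw [h4] at hv
      right
      rcases ih (t - 1) _ (by omega) h3 hv with h5 | ⟨u, ⟨hu1, hu2⟩, hu3⟩
      · rw [Set.mem_singleton_iff] at h5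
        exact ⟨(t - 1) / 2 - 1, ⟨by omega, by omega⟩, h5.symm⟩
      · exact ⟨u, ⟨by omega, by omega⟩, hu3⟩

theorem ccone : CCONE_stmt := by
  intro A N h n p k t z hk hz
  have hfin : ({u : ℕ | t ≤ 2 * u + 2 + k ∧ 2 * u + 2 < t}).Finite :=
    (Set.finite_lt_nat t).subset fun u hu => by
      have := hu.2
      show u < t
      omega
  have hcard : ({u : ℕ | t ≤ 2 * u + 2 + k ∧ 2 * u + 2 < t}).ncard ≤ k := by
    have h1 : ({u : ℕ | t ≤ 2 * u + 2 + k ∧ 2 * u + 2 < t}).ncard ≤
        ((Finset.range k : Finset ℕ) : Set ℕ).ncard := by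
      refine Set.ncard_le_ncard_of_injOn (fun u => 2 * u + 2 - (t - k)) ?_ ?_
        (Finset.finite_toSet _)
      · intro u hu
        have h1 := hu.1
        have h2 := hu.2
        rw [Finset.coe_range, Set.mem_Iio]
        show 2 * u + 2 - (t - k) < k
        omega
      · intro u hu v hv huv
        have h1 := hu.1
        have h2 := hv.1
        have h3 : 2 * u + 2 - (t - k) = 2 * v + 2 - (t - k) := huv
        omega
    rw [Set.ncard_coe_finset, Finset.card_range] at h1
    exact h1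
  calc (N.cone n p k t z).ncard
      ≤ ({z} ∪ (fun u : ℕ => pad p.length u.bits) ''
        {u : ℕ | t ≤ 2 * u + 2 + k ∧ 2 * u + 2 < t} : Set (List Bool)).ncard :=
        Set.ncard_le_ncard (cone_sub h n p k t z hk hz)
          ((Set.finite_singleton z).union (hfin.image _))
    _ ≤ ({z} : Set (List Bool)).ncard + ((fun u : ℕ => pad p.length u.bits) ''
        {u : ℕ | t ≤ 2 * u + 2 + k ∧ 2 * u + 2 < t}).ncard := Set.ncard_union_le _ _
    _ ≤ 1 + k := by
        rw [Set.ncard_singleton]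
        exact Nat.add_le_add_left ((Set.ncard_image_le hfin).trans hcard) 1
    _ = k + 1 := Nat.add_comm _ _

end Pool.Agent.Helper65.NX.K35
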