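import Pool.Agent.Helper65.NX.Goals2

/-!
# Packet NW-CSHORT: descriptions of the net of a circuit
-/

namespace Pool.Agent.Helper65.NX.K35

open Pool.Agent.Helper65.LinSpace Pool.Agent.Helper78.Mpc Pool.Agent.Helper28.Ram Finset
open Pool.Agent.Helper65.HC Pool.Agent.Helper65.NX
open Pool.Agent.Helper81.Sus2 (Decomp)

theorem hp_hd' (n t : ℕ) (p z : List Bool) : hp (hd n t p z) = p := by
  have := hp_hd n t p z []
  rwa [List.append_nil] at this

theorem hz_hd' (n t : ℕ) (p z : List Bool) : hz (hd n t p z) = z := by
  have := hz_hd n t p z []
  rwa [List.append_nil] at this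

theorem hn_hd' (n t : ℕ) (p z : List Bool) : hn (hd n t p z) = n := by
  have := hn_hd n t p z []
  rwa [List.append_nil] at this

theorem ht_hd' (n t : ℕ) (p z : List Bool) : ht (hd n t p z) = t := by
  have := ht_hd n t p z []
  rwa [List.append_nil] at this

theorem re_hd_ne (n t : ℕ) (p z : List Bool) : re (hd n t p z) ≠ [] := by
  rw [hd, re_sd]
  intro h
  have := congrArg List.length h
  rw [List.length_append, length_sd] at this
  simp at this

theorem length_hd (n t : ℕ) (p z : List Bool) : (hd n t p z).length =
    2 * (n.bits.length + t.bits.length + p.length + z.length) + 4 := by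
  rw [hd, List.length_append, List.length_append, List.length_append, length_sd, length_sd,
    length_sd, length_sd]
  ring

theorem eadr_run (E : Decomp) (σ : List Bool) : eadr E (false :: sd σ) = E.addr σ := by
  unfold eadr
  rw [List.drop_one, List.tail_cons, re_sd', if_pos rfl, pr_sd']

theorem eadr_start (E : Decomp) (n t : ℕ) (p z : List Bool) : eadr E (false :: hd n t p z) =
    (if bval z < n then bval z else bval z - n).bits := by
  unfold eadr
  rw [List.drop_one, List.tail_cons, if_neg (re_hd_ne n t p z), cadr, hz_hd', hn_hd']

theorem enext_run (E : Decomp) (σ R : List Bool) : enext E (sd (false :: sd σ) ++ R) =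
    if (E.next (sd σ ++ R))[0]? = some true ∧ (E.next (sd σ ++ R))[1]? = some true then
      [true, true, false, false] ++ (E.next (sd σ ++ R)).drop 2
    else [false] ++ sd (E.next (sd σ ++ R)) := by
  unfold enext
  rw [pr_sd, re_sd, List.drop_one, List.tail_cons, re_sd', if_pos rfl, pr_sd']

theorem enext_start (E : Decomp) (n t : ℕ) (p z R : List Bool) :
    enext E (sd (false :: hd n t p z) ++ R) =
    if bval p < bval z ∨ bval z < (t - 1) / 2 then [true, true]
    else if bval z < n then [true, true, false, true] ++ pr R
    else if pr (re R) = [] then [false] ++ sd ([false] ++ (bval z).bits)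
    else [true, true, false, true] ++ pr (re R) := by
  unfold enext
  rw [pr_sd, re_sd, List.drop_one, List.tail_cons, if_neg (re_hd_ne n t p z), hp_hd', hz_hd',
    hn_hd', ht_hd']

theorem run_succ (E : Decomp) (w y D i : List Bool) (t : ℕ)
    (h : (E.run w y D i t).head? ≠ some true) : E.run w y D i (t + 1) =
      E.next (sd (E.run w y D i t) ++ (sd w[bval (E.addr (E.run w y D i t))]?.toList ++
        (sd y[bval (E.addr (E.run w y D i t))]?.toList ++
          D[bval (E.addr (E.run w y D i t))]?.toList))) := by
  show (if (E.run w y D i t).head? = some true then _ else _) = _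
  rw [if_neg h]

theorem run_const (E : Decomp) (w y D i : List Bool) (t : ℕ)
    (h : (E.run w y D i t).head? = some true) (s : ℕ) :
    E.run w y D i (t + s) = E.run w y D i t := by
  induction s with
  | zero => rfl
  | succ s ih =>
    show (if (E.run w y D i (t + s)).head? = some true then _ else _) = _
    rw [ih, if_pos h]
    exact ih

theorem cshort (hC : CVAL_stmt) : CSHORT_stmt := by
  intro A N hN E E' hE w y r a a' m u hur hS ha1 ha2
  obtain ⟨D, hD, hS⟩ := hS
  refine ⟨D, hD, fun z hz => ?_⟩
  rw [hC A N hN w y r.bits z hz, Pool.Agent.Helper31.TMS.bval_bits]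
  set n := w.length with hn
  set ι := hd n (2 * u + 1) r.bits z with hι
  set i := bval z with hi
  -- the start
  have hl0 : (E'.run w y D ι 0).length ≤ a' := by
    show (false :: ι).length ≤ a'
    rw [List.length_cons, hι, length_hd, hz]
    omega
  have hibits : i.bits.length ≤ r.bits.length := by
    rw [← hz]
    exact length_bits (bval_lt z)
  have hj0 : bval (E'.addr (E'.run w y D ι 0)) = if i < n then i else i - n := by
    show bval (E'.addr (false :: ι)) = _
    rw [hE.addr, hι, eadr_start, Pool.Agent.Helper31.TMS.bval_bits]
  have hla0 : (E'.addr (E'.run w y D ι 0)).length ≤ a' := by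
    show (E'.addr (false :: ι)).length ≤ a'
    rw [hE.addr, hι, eadr_start]
    refine le_trans (length_bits (k := z.length) ?_) (by omega)
    have := bval_lt z
    split_ifs <;> omega
  have hrun1 : E'.run w y D ι 1 =
      if r < i ∨ i < u then [true, true]
      else if i < n then [true, true, false, true] ++ w[i]?.toList
      else if y[i - n]?.toList = [] then [false] ++ sd ([false] ++ i.bits)
      else [true, true, false, true] ++ y[i - n]?.toList := by
    rw [run_succ E' w y D ι 0 (by show (false :: ι).head? ≠ some true; simp), hj0]
    show E'.next (sd (false :: ι) ++ _) = _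
    rw [hE.next, hι, enext_start, pr_sd, re_sd, pr_sd, Pool.Agent.Helper31.TMS.bval_bits]
    have h2 : (2 * u + 1 - 1) / 2 = u := by omega
    rw [h2]
    by_cases h3 : r < i ∨ i < u
    · rw [if_pos h3, if_pos h3]
    · rw [if_neg h3, if_neg h3]
      by_cases h4 : i < n
      · rw [if_pos h4, if_pos h4, if_pos h4]
      · rw [if_neg h4, if_neg h4, if_neg h4]
  -- answers after one step
  have one : ∀ v : List Bool, E'.run w y D ι 1 = true :: true :: v → v.length ≤ 3 →
      E'.Says w y a' D ι v := by
    intro v hv hlv
    refine ⟨1, hv, fun t ht => ?_, fun t ht => ?_⟩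
    · rcases Nat.lt_or_ge 0 t with h | h
      · have : t = 1 := by omega
        rw [this, hv, List.length_cons, List.length_cons]
        omega
      · have : t = 0 := by omega
        rw [this]
        exact hl0
    · have : t = 0 := by omega
      rw [this]
      exact hla0
  unfold cc
  have h2 : (2 * u + 1 - 1) / 2 = u := by omega
  rw [h2]
  by_cases h3 : r < i ∨ i < u
  · rw [if_pos (Or.inr h3)]
    exact one [] (by rw [hrun1, if_pos h3]) (by simp)
  · rw [if_neg h3] at hrun1
    push Not at h3
    rw [if_neg (by omega), if_neg (by omega)]
    by_cases h4 : i < n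
    · rw [if_pos h4] at hrun1
      have h5 : (w ++ y)[i]? = w[i]? := List.getElem?_append_left h4
      rw [List.getElem?_eq_getElem h4] at h5 hrun1
      rw [h5]
      exact one [false, true, w[i]] hrun1 (by simp)
    · rw [if_neg h4] at hrun1
      have h5 : (w ++ y)[i]? = y[i - n]? := List.getElem?_append_right (by omega)
      rw [h5]
      rcases hyi : y[i - n]? with _ | b
      · -- the run of `E`
        rw [hyi, Option.toList_none, if_pos rfl] at hrun1
        have h6 : (w ++ y).length ≤ i := by
          rw [List.length_append]
          have := List.getElem?_eq_none_iff.1 hyi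
          omega
        obtain ⟨T0, hT0, hlen, hadr⟩ := hS i h3.2 h3.1 h6
        set S := E.run w y D i.bits with hSdef
        have hex : ∃ T, (S T).head? = some true := ⟨T0, by rw [hT0]; rfl⟩
        classical
        set T := Nat.find hex with hT
        have hT1 : (S T).head? = some true := Nat.find_spec hex
        have hT2 : ∀ τ < T, (S τ).head? ≠ some true := fun τ hτ => Nat.find_min hex hτ
        have hTT : T ≤ T0 := Nat.find_min' hex (by rw [hT0]; rfl)
        have hST : S T = true :: true :: A.scan n i (A.vals w y i) u := by
          obtain ⟨s, hs⟩ := Nat.exists_eq_add_of_le hTT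
          rw [← hT0, hs]
          exact (run_const E w y D i.bits T hT1 s).symm
        have hTpos : 0 < T := by
          rcases Nat.eq_zero_or_pos T with h | h
          · exfalso
            rw [h] at hT1
            have : (false :: i.bits).head? = some true := hT1
            simp at this
          · exact h
        have hrunτ : ∀ τ < T, E'.run w y D ι (1 + τ) = [false] ++ sd (S τ) := by
          intro τ
          induction τ with
          | zero => intro _; exact hrun1
          | succ τ ih =>
            intro hτ
            have ih1 := ih (by omega)
            rw [← Nat.add_assoc, run_succ E' w y D ι (1 + τ) (by rw [ih1]; simp), ih1]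
            rw [List.singleton_append, hE.addr, hE.next, eadr_run, enext_run,
              ← run_succ E w y D i.bits τ (hT2 τ (by omega))]
            rw [if_neg, List.singleton_append]
            rintro ⟨h7, -⟩
            apply hT2 (τ + 1) hτ
            rw [List.head?_eq_getElem?]
            exact h7
        have hrunT : E'.run w y D ι (1 + T) =
            true :: true :: ([false, false] ++ A.scan n i (A.vals w y i) u) := by
          obtain ⟨τ, hτ⟩ := Nat.exists_eq_succ_of_ne_zero hTpos.ne'
          have ih1 := hrunτ τ (by omega)
          rw [hτ, ← Nat.add_one, ← Nat.add_assoc,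
            run_succ E' w y D ι (1 + τ) (by rw [ih1]; simp), ih1]
          rw [List.singleton_append, hE.addr, hE.next, eadr_run, enext_run,
            ← run_succ E w y D i.bits τ (hT2 τ (by omega))]
          have h8 : E.run w y D i.bits (τ + 1) =
              true :: true :: A.scan n i (A.vals w y i) u := by
            rw [← hST, hτ]
          rw [h8, if_pos ⟨by simp, by simp⟩]
          simp
        refine ⟨1 + T, hrunT, fun t ht => ?_, fun t ht => ?_⟩
        · rcases Nat.eq_zero_or_pos t with h | h
          · rw [h]
            exact hl0
          · obtain ⟨τ, rfl⟩ := Nat.exists_eq_add_of_le (show 1 ≤ t by omega)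
            rcases Nat.lt_or_ge τ T with h9 | h9
            · rw [hrunτ τ h9, List.length_append, length_sd]
              have := hlen τ (by omega)
              simp only [List.length_singleton]
              omega
            · have h10 : τ = T := by omega
              rw [h10, hrunT]
              have h11 := hlen T hTT
              rw [hST] at h11
              simp only [List.length_cons, List.length_append, List.length_nil] at h11 ⊢
              omega
        · rcases Nat.eq_zero_or_pos t with h | h
          · rw [h]
            exact hla0
          · obtain ⟨τ, rfl⟩ := Nat.exists_eq_add_of_le (show 1 ≤ t by omega)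
            rw [hrunτ τ (by omega), List.singleton_append, hE.addr, eadr_run]
            exact (hadr τ (by omega)).trans (by omega)
      · rw [hyi, Option.toList_some, if_neg (by simp)] at hrun1
        exact one [false, true, b] hrun1 (by simp)

end Pool.Agent.Helper65.NX.K35
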